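import Pool.Agent.Q181.BD.Stm3

set_option autoImplicit false
set_option linter.unusedSectionVars false

/-! # Orbits: the periodic path of a cycle with nontrivial drift -/

namespace Pool.Agent.Q234.BD

open TH57.Thr Pool.Agent.Q181.BD

section basic

variable {G : Type} [CommGroup G] {κ : Type}

/-- left multiplication -/
def lm : G →* Equiv.Perm (G × κ) where
  toFun a :=
    { toFun := fun p => (a * p.1, p.2)
      invFun := fun p => (a⁻¹ * p.1, p.2)
      left_inv := fun p => by simp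
      right_inv := fun p => by simp }
  map_one' := by ext p <;> simp
  map_mul' a b := by ext p <;> simp [mul_assoc]

theorem lm_apply (a : G) (p : G × κ) : (lm a : Equiv.Perm (G × κ)) p = (a * p.1, p.2) := rfl

variable [Fintype κ] [DecidableEq κ] {A : Matrix κ κ (MonoidAlgebra ℤ G)}

/-- the permutation of the rows -/
def ph (t t' : Term A) : Equiv.Perm (G × κ) where
  toFun p := (p.1 * t.e p.2 * (t'.e (cp2 t t' p.2))⁻¹, cp2 t t' p.2)
  invFun p := (p.1 * t'.e p.2 * (t.e ((cp2 t t')⁻¹ p.2))⁻¹, (cp2 t t')⁻¹ p.2)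
  left_inv p := by
    ext
    · simp
    · simp
  right_inv p := by
    ext
    · simp
    · simp

theorem ph_apply (t t' : Term A) (p : G × κ) :
    ph t t' p = (p.1 * t.e p.2 * (t'.e (cp2 t t' p.2))⁻¹, cp2 t t' p.2) := rfl

theorem ph_symm_snd (t t' : Term A) (p : G × κ) :
    ((ph t t')⁻¹ p).2 = (cp2 t t')⁻¹ p.2 := rfl

theorem ph_comm (t t' : Term A) (a : G) : Commute (ph t t') (lm a) := by
  ext p
  · simp [ph_apply, lm_apply, mul_assoc]
  · simp [ph_apply, lm_apply]

theorem ph_zpow_lm (t t' : Term A) (n : ℤ) (a : G) (p : G × κ) :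
    (ph t t' ^ n) (lm a p) = lm a ((ph t t' ^ n) p) := by
  have := ((ph_comm t t' a).zpow_left n).eq
  exact DFunLike.congr_fun this p

theorem ph_zpow_snd (t t' : Term A) (n : ℤ) : ∀ p : G × κ,
    ((ph t t' ^ n) p).2 = (cp2 t t' ^ n) p.2 := by
  induction n using Int.induction_on with
  | zero => intro p; simp
  | succ n ih =>
    intro p
    rw [zpow_add_one, Equiv.Perm.mul_apply, ih, zpow_add_one, Equiv.Perm.mul_apply]
    rfl
  | pred n ih =>
    intro p
    rw [zpow_sub_one, Equiv.Perm.mul_apply, ih, zpow_sub_one, Equiv.Perm.mul_apply]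
    rfl

theorem ph_pow (t t' : Term A) (n : ℕ) (g : G) (k : κ) :
    (ph t t' ^ n) (g, k) = (g * ∏ m ∈ Finset.range n, (t.e ((cp2 t t' ^ m) k) *
      (t'.e ((cp2 t t' ^ (m + 1)) k))⁻¹), (cp2 t t' ^ n) k) := by
  induction n with
  | zero => simp
  | succ n ih =>
    rw [pow_succ', Equiv.Perm.mul_apply, ih, ph_apply, Finset.prod_range_succ,
      pow_succ' (cp2 t t') n, Equiv.Perm.mul_apply]
    simp only [mul_assoc]

open Classical in
theorem prod_cycle (π : Equiv.Perm κ) (i : κ) (f : κ → G) :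
    ∏ m ∈ Finset.range (Function.minimalPeriod π i), f ((π ^ m) i) =
      ∏ j ∈ Finset.univ.filter (fun j => π.SameCycle i j), f j := by
  have hpos : 0 < Function.minimalPeriod π i :=
    Function.minimalPeriod_pos_of_mem_periodicPts
      (Function.Injective.mem_periodicPts π.injective i)
  refine Finset.prod_bij (fun m _ => (π ^ m) i) ?_ ?_ ?_ ?_
  · intro m _
    rw [Finset.mem_filter]
    exact ⟨Finset.mem_univ _, ⟨(m : ℤ), by rw [zpow_natCast]⟩⟩
  · intro m hm m' hm' h
    rw [Finset.mem_range] at hm hm'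
    refine Function.iterate_injOn_Iio_minimalPeriod (f := π) (x := i) hm hm' ?_
    simpa [Equiv.Perm.iterate_eq_pow] using h
  · intro j hj
    rw [Finset.mem_filter] at hj
    obtain ⟨n, hn⟩ := hj.2.exists_nat_pow_eq
    refine ⟨n % Function.minimalPeriod π i, Finset.mem_range.2 (Nat.mod_lt _ hpos), ?_⟩
    rw [← hn]
    simp only [← Equiv.Perm.iterate_eq_pow]
    exact Function.iterate_mod_minimalPeriod_eq
  · intro m _
    rfl

theorem ph_pow_period (t t' : Term A) (i : κ) (g : G) :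
    (ph t t' ^ Function.minimalPeriod (cp2 t t') i) (g, i) = (g * dr t t' i, i) := by
  classical
  have h1 : (cp2 t t' ^ Function.minimalPeriod (cp2 t t') i) i = i := by
    rw [← Equiv.Perm.iterate_eq_pow]
    exact Function.iterate_minimalPeriod
  rw [ph_pow, h1, Finset.prod_mul_distrib, prod_cycle (cp2 t t') i t.e]
  have h2 : ∏ m ∈ Finset.range (Function.minimalPeriod (cp2 t t') i),
      (t'.e ((cp2 t t' ^ (m + 1)) i))⁻¹ =
      ∏ j ∈ Finset.univ.filter (fun j => (cp2 t t').SameCycle i j), (t'.e j)⁻¹ := by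
    rw [← prod_cycle (cp2 t t') i (fun j => (t'.e j)⁻¹)]
    have h3 := Finset.prod_range_succ (fun m => (t'.e ((cp2 t t' ^ m) i))⁻¹)
      (Function.minimalPeriod (cp2 t t') i)
    rw [Finset.prod_range_succ'] at h3
    simp only [pow_zero, Equiv.Perm.coe_one, id] at h3
    rw [h1] at h3
    exact mul_right_cancel h3
  rw [h2, ← Finset.prod_mul_distrib]
  simp only [dr]

theorem ph_zpow_period (t t' : Term A) (i : κ) (q : ℤ) :
    (ph t t' ^ ((Function.minimalPeriod (cp2 t t') i : ℤ) * q)) (1, i) =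
      (dr t t' i ^ q, i) := by
  set L := Function.minimalPeriod (cp2 t t') i
  set ρ := ph t t' ^ L with hρ
  have h1 : ρ (1, i) = lm (dr t t' i) (1, i) := by
    rw [hρ, ph_pow_period, lm_apply]; simp
  have hc : Commute ρ (lm (dr t t' i)) := (ph_comm t t' _).pow_left L
  have hc' : Commute (lm (dr t t' i) : Equiv.Perm (G × κ))⁻¹ ρ := hc.symm.inv_left
  have h2 : ((lm (dr t t' i) : Equiv.Perm (G × κ))⁻¹ * ρ) (1, i) = (1, i) := by
    rw [Equiv.Perm.mul_apply, h1]
    exact Equiv.symm_apply_apply _ _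
  have h3 := Equiv.Perm.zpow_apply_eq_self_of_apply_eq_self h2 q
  rw [hc'.mul_zpow, Equiv.Perm.mul_apply, inv_zpow, Equiv.Perm.inv_eq_iff_eq] at h3
  rw [zpow_mul, zpow_natCast, ← hρ, h3, ← map_zpow, lm_apply]
  simp

/-- the path -/
def pth (t t' : Term A) (i : κ) (j : ℤ) : Vx G κ κ :=
  if j % 2 = 0 then Sum.inl ((ph t t' ^ (j / 2)) (1, i))
  else Sum.inr (((ph t t' ^ (j / 2)) (1, i)).1 * t.e ((ph t t' ^ (j / 2)) (1, i)).2,
    t.σ ((ph t t' ^ (j / 2)) (1, i)).2)

theorem pth_even (t t' : Term A) (i : κ) (n : ℤ) :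
    pth t t' i (2 * n) = Sum.inl ((ph t t' ^ n) (1, i)) := by
  unfold pth
  rw [if_pos (by omega), show 2 * n / 2 = n by omega]

theorem pth_odd (t t' : Term A) (i : κ) (n : ℤ) :
    pth t t' i (2 * n + 1) = Sum.inr (((ph t t' ^ n) (1, i)).1 * t.e ((ph t t' ^ n) (1, i)).2,
    t.σ ((ph t t' ^ n) (1, i)).2) := by
  unfold pth
  rw [if_neg (by omega), show (2 * n + 1) / 2 = n by omega]

theorem adj_one (t : Term A) (p : G × κ) :
    wz A (Sum.inl p) (Sum.inr (p.1 * t.e p.2, t.σ p.2)) ≠ 0 := by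
  simp only [wz]
  rw [inv_mul_cancel_left]
  exact t.ne p.2

theorem adj_two (t t' : Term A) (p : G × κ) :
    wz A (Sum.inr (p.1 * t.e p.2, t.σ p.2)) (Sum.inl (ph t t' p)) ≠ 0 := by
  simp only [wz, ph_apply]
  have h1 : (p.1 * t.e p.2 * (t'.e (cp2 t t' p.2))⁻¹)⁻¹ * (p.1 * t.e p.2) =
      t'.e (cp2 t t' p.2) := by
    rw [mul_inv_rev, inv_inv, inv_mul_cancel_right]
  have h2 : t.σ p.2 = t'.σ (cp2 t t' p.2) := by simp [cp2]
  rw [h1, h2]
  exact t'.ne _

theorem mv_lm (g : G) (p : G × κ) : mv g (Sum.inl p : Vx G κ κ) = Sum.inl (lm g p) := rfl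

/-- two points of the orbit which are translates of each other -/
theorem key (t t' : Term A) (i : κ) (g : G) (n m : ℤ)
    (h : lm g ((ph t t' ^ n) (1, i)) = (ph t t' ^ m) (1, i)) :
    ∃ q : ℤ, m - n = (Function.minimalPeriod (cp2 t t') i : ℤ) * q ∧ g = dr t t' i ^ q := by
  have h1 : (ph t t' ^ (m - n)) (1, i) = (g, i) := by
    rw [← ph_zpow_lm] at h
    rw [sub_eq_neg_add, zpow_add, Equiv.Perm.mul_apply, ← h, ← Equiv.Perm.mul_apply, ← zpow_add]
    simp [lm_apply]
  have h2 : (cp2 t t' ^ (m - n)) i = i := by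
    have := ph_zpow_snd t t' (m - n) (1, i)
    rw [h1] at this
    exact this.symm
  have h3 : (Function.minimalPeriod (cp2 t t') i : ℤ) ∣ (m - n) := by
    have e : ∀ k : ℕ, (cp2 t t' ^ k) i = i → Function.minimalPeriod (cp2 t t') i ∣ k := by
      intro k hk
      rw [← Equiv.Perm.iterate_eq_pow] at hk
      exact Function.IsPeriodicPt.minimalPeriod_dvd hk
    rcases Int.natAbs_eq (m - n) with h4 | h4
    · rw [h4, zpow_natCast] at h2
      rw [h4]
      exact_mod_cast e _ h2
    · rw [h4, zpow_neg, Equiv.Perm.inv_eq_iff_eq, zpow_natCast] at h2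
      rw [h4, Int.dvd_neg]
      exact_mod_cast e _ h2.symm
  obtain ⟨q, hq⟩ := h3
  refine ⟨q, hq, ?_⟩
  rw [hq, ph_zpow_period] at h1
  exact (congrArg Prod.fst h1).symm

end basic

theorem t_orb : S_orb := by
  intro G _ htf κ _ _ A t t' i hδ
  classical
  set δ := dr t t' i with hδd
  set L := Function.minimalPeriod (cp2 t t') i with hL
  have hpos : 0 < L := Function.minimalPeriod_pos_of_mem_periodicPts
      (Function.Injective.mem_periodicPts (cp2 t t').injective i)
  -- parity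
  have par : ∀ g j l, mv g (pth t t' i j) = pth t t' i l →
      ∃ n m : ℤ, lm g ((ph t t' ^ n) (1, i)) = (ph t t' ^ m) (1, i) ∧ l - j = 2 * (m - n) := by
    intro g j l h
    rcases Int.even_or_odd' j with ⟨n, hn | hn⟩ <;> rcases Int.even_or_odd' l with ⟨m, hm | hm⟩
    · subst hn hm
      rw [pth_even, pth_even, mv_lm] at h
      exact ⟨n, m, Sum.inl_injective h, by ring⟩
    · subst hn hm
      rw [pth_even, pth_odd] at h
      exact absurd h (by simp [mv])
    · subst hn hm
      rw [pth_even, pth_odd] at h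
      exact absurd h (by simp [mv])
    · subst hn hm
      rw [pth_odd, pth_odd] at h
      have h1 := Sum.inr_injective h
      have h2 : ((ph t t' ^ n) (1, i)).2 = ((ph t t' ^ m) (1, i)).2 :=
        t.σ.injective (congrArg Prod.snd h1)
      have h3 : g * (((ph t t' ^ n) (1, i)).1 * t.e ((ph t t' ^ n) (1, i)).2) =
        ((ph t t' ^ m) (1, i)).1 * t.e ((ph t t' ^ m) (1, i)).2 := congrArg Prod.fst h1
      rw [h2, ← mul_assoc] at h3
      refine ⟨n, m, ?_, by ring⟩
      rw [lm_apply]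
      exact Prod.ext (mul_right_cancel h3) h2
  refine ⟨pth t t' i, L, hpos, ?_, ?_, ?_, ?_, ?_⟩
  · intro j l h
    obtain ⟨n, m, h1, h2⟩ := par 1 j l (by rw [mv_one]; exact h)
    obtain ⟨q, hq, h3⟩ := key t t' i 1 n m h1
    have hq0 : q = 0 := by
      by_contra hne
      rcases lt_or_gt_of_ne hne with h4 | h4
      · have h5 : δ ^ (-q).toNat = 1 := by
          have : δ ^ (-q) = 1 := by rw [zpow_neg, ← h3, inv_one]
          rw [← zpow_natCast, Int.toNat_of_nonneg (by omega)]
          exact this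
        exact hδ (htf _ _ (by omega) h5)
      · have h5 : δ ^ q.toNat = 1 := by
          rw [← zpow_natCast, Int.toNat_of_nonneg (by omega)]
          exact h3.symm
        exact hδ (htf _ _ (by omega) h5)
    subst hq0
    omega
  · intro j
    rcases Int.even_or_odd' j with ⟨n, hn | hn⟩
    · subst hn
      rw [pth_even, pth_odd]
      exact adj_one t _
    · subst hn
      rw [show (2 * n + 1 + 1 : ℤ) = 2 * (n + 1) by ring, pth_odd, pth_even, add_comm n 1,
        zpow_one_add, Equiv.Perm.mul_apply]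
      exact adj_two t t' _
  · intro j
    have hF : ∀ n : ℤ, (ph t t' ^ (n + L)) (1, i) = lm δ ((ph t t' ^ n) (1, i)) := by
      intro n
      rw [zpow_add, Equiv.Perm.mul_apply, zpow_natCast, ph_pow_period, ← ph_zpow_lm, lm_apply]
      simp [hδd]
    rcases Int.even_or_odd' j with ⟨n, hn | hn⟩
    · subst hn
      rw [show (2 * n + 2 * (L : ℤ) : ℤ) = 2 * (n + L) by ring, pth_even, pth_even, hF]
      rfl
    · subst hn
      rw [show (2 * n + 1 + 2 * (L : ℤ) : ℤ) = 2 * (n + L) + 1 by ring, pth_odd, pth_odd, hF]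
      simp [mv, lm_apply, mul_assoc]
  · intro j
    rcases Int.even_or_odd' j with ⟨n, hn | hn⟩
    · subst hn
      rw [pth_even]
      simp only [Cyc]
      rw [ph_zpow_snd]
      exact ⟨n, rfl⟩
    · subst hn
      rw [pth_odd]
      simp only [Cyc]
      rw [show t.σ⁻¹ (t.σ ((ph t t' ^ n) (1, i)).2) = ((ph t t' ^ n) (1, i)).2 from
        Equiv.symm_apply_apply _ _, ph_zpow_snd]
      exact ⟨n, rfl⟩
  · intro g j l h
    obtain ⟨n, m, h1, _⟩ := par g j l h
    obtain ⟨q, _, h3⟩ := key t t' i g n m h1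
    rw [h3]
    exact ⟨q, rfl⟩

end Pool.Agent.Q234.BD
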